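import Pool.Agent.H95.SCG.TQCore

/-!
SCG, module TQD: two diagonalisable blocks without common eigenline.
-/

namespace Pool.Agent.H95.SCG

open Matrix Pool.SCG

theorem tqd_thm (hNQ : Pool.SCG.NQStmt) : Pool.SCG.TQDStmt := by
  intro F _ _ h2 X x y e a11 a12 a21 a22 a33 b11 b12 b21 b22 b33 α β α' β' v w v' w' hx hy hxI
    hyI hAv hAw hBv hBw hαβ hαβ' c1 c2 c3 c4 he
  by_contra heX
  have hA : Is x false (blk !![a11, a12; a21, a22] a33) := by
    have : blk !![a11, a12; a21, a22] a33 = !![a11, a12, 0; a21, a22, 0; 0, 0, a33] := by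
      simp [blk]
    rw [this]
    exact hxI
  have hB : Is y false (blk !![b11, b12; b21, b22] b33) := by
    have : blk !![b11, b12; b21, b22] b33 = !![b11, b12, 0; b21, b22, 0; 0, 0, b33] := by
      simp [blk]
    rw [this]
    exact hyI
  generalize hAdef : !![a11, a12; a21, a22] = A at hA hAv hAw
  generalize hBdef : !![b11, b12; b21, b22] = B at hB hBv hBw
  have hαβ1 : α ≠ β := fun h => hαβ (by rw [h])
  have hαβ1' : α' ≠ β' := fun h => hαβ' (by rw [h])
  have hv : v ≠ 0 := by rintro rfl; exact c1 (by simp)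
  have hw : w ≠ 0 := by rintro rfl; exact c3 (by simp)
  have hv' : v' ≠ 0 := by rintro rfl; exact c1 (by simp)
  have hw' : w' ≠ 0 := by rintro rfl; exact c2 (by simp)
  rcases core hNQ h2 hx hy hA hB (sq_not_scalar hAv hAw hαβ hv hw)
    (sq_not_scalar hBv hBw hαβ' hv' hw') he heX with hc | ⟨u, hu, ⟨γ, hγ⟩, ⟨γ', hγ'⟩⟩
  · have h1 : A *ᵥ (B *ᵥ v) = α • (B *ᵥ v) := by
      rw [Matrix.mulVec_mulVec, hc, ← Matrix.mulVec_mulVec, hAv, Matrix.mulVec_smul]
    have h3 := (eig_two hAv hAw hαβ1 hv hw h1).2 hαβ1.symm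
    obtain ⟨c, hcv⟩ := exists_smul hv h3
    rcases eig_or hBv hBw hαβ1' hv' hw' hcv with h4 | h4
    · exact c1 h4
    · exact c2 h4
  · have f := algebraMap F (AlgebraicClosure F)
    have m1 := vm_mulVec (algebraMap F (AlgebraicClosure F)) hAv
    have m2 := vm_mulVec (algebraMap F (AlgebraicClosure F)) hAw
    have m3 := vm_mulVec (algebraMap F (AlgebraicClosure F)) hBv
    have m4 := vm_mulVec (algebraMap F (AlgebraicClosure F)) hBw
    have n1 := vm_ne (algebraMap F (AlgebraicClosure F)) hv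
    have n2 := vm_ne (algebraMap F (AlgebraicClosure F)) hw
    have n3 := vm_ne (algebraMap F (AlgebraicClosure F)) hv'
    have n4 := vm_ne (algebraMap F (AlgebraicClosure F)) hw'
    have i1 : algebraMap F (AlgebraicClosure F) α ≠ algebraMap F (AlgebraicClosure F) β :=
      fun h => hαβ1 ((algebraMap F (AlgebraicClosure F)).injective h)
    have i2 : algebraMap F (AlgebraicClosure F) α' ≠ algebraMap F (AlgebraicClosure F) β' :=
      fun h => hαβ1' ((algebraMap F (AlgebraicClosure F)).injective h)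
    have key : ∀ p q : Fin 2 → F, cr p q ≠ 0 →
        cr u (vm (algebraMap F (AlgebraicClosure F)) p) = 0 →
        cr u (vm (algebraMap F (AlgebraicClosure F)) q) = 0 → False := by
      intro p q hpq h5 h6
      have h7 := cr_trans hu h5 h6
      rw [vm_cr] at h7
      exact hpq ((map_eq_zero _).1 h7)
    rcases eig_or m1 m2 i1 n1 n2 hγ with h5 | h5 <;> rcases eig_or m3 m4 i2 n3 n4 hγ' with h6 | h6
    · exact key v v' c1 h5 h6
    · exact key v w' c2 h5 h6
    · exact key w v' c3 h5 h6
    · exact key w w' c4 h5 h6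

end Pool.Agent.H95.SCG
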