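import Pool.Agent.H95.SCG.TQCore

/-!
SCG, module TQT: two transvections with different directions.
-/

namespace Pool.Agent.H95.SCG

open Matrix Pool.SCG

section tv

variable {L : Type*} [Field L]

/-- a transvection -/
def tv (k v1 v2 : L) : M2 L := !![1 - k * v1 * v2, k * v1 ^ 2; -(k * v2 ^ 2), 1 + k * v1 * v2]

lemma tv_mulVec (k v1 v2 : L) (u : Fin 2 → L) :
    tv k v1 v2 *ᵥ u = u + (k * (v1 * u 1 - v2 * u 0)) • ![v1, v2] := by
  funext i
  fin_cases i
  · simp [tv, Matrix.mulVec, dotProduct, Fin.sum_univ_two]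
    ring
  · simp [tv, Matrix.mulVec, dotProduct, Fin.sum_univ_two]
    ring

/-- eigenvectors of a transvection -/
lemma tv_eig {k v1 v2 γ : L} {u : Fin 2 → L} (hk : k ≠ 0) (hv : (![v1, v2] : Fin 2 → L) ≠ 0)
    (h : tv k v1 v2 *ᵥ u = γ • u) : cr ![v1, v2] u = 0 := by
  rw [tv_mulVec] at h
  have hc : cr ![v1, v2] u = v1 * u 1 - v2 * u 0 := by simp [cr]
  rw [← hc] at h
  have h1 : cr ![v1, v2] (u + (k * cr ![v1, v2] u) • ![v1, v2]) = γ * cr ![v1, v2] u := by
    rw [h, cr_smul_right]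
  have h2 : cr ![v1, v2] (u + (k * cr ![v1, v2] u) • ![v1, v2]) = cr ![v1, v2] u := by
    have : ∀ c : L, cr ![v1, v2] (u + c • ![v1, v2]) = cr ![v1, v2] u := by
      intro c
      simp [cr]
      ring
    exact this _
  rw [h2] at h1
  by_contra hne
  have hγ : γ = 1 := by
    have : (γ - 1) * cr ![v1, v2] u = 0 := by rw [sub_mul, one_mul, ← h1, sub_self]
    rcases mul_eq_zero.1 this with h3 | h3
    · exact sub_eq_zero.1 h3
    · exact absurd h3 hne
  rw [hγ, one_smul] at h
  have h4 : (k * cr ![v1, v2] u) • (![v1, v2] : Fin 2 → L) = 0 := by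
    have := congrArg (fun z => z - u) h
    simpa using this
  rcases smul_eq_zero.1 h4 with h5 | h5
  · rcases mul_eq_zero.1 h5 with h6 | h6
    · exact hk h6
    · exact hne h6
  · exact hv h5

lemma tv_self (k v1 v2 : L) : tv k v1 v2 *ᵥ ![v1, v2] = (1 : L) • ![v1, v2] := by
  rw [tv_mulVec]
  have : v1 * (![v1, v2] : Fin 2 → L) 1 - v2 * (![v1, v2] : Fin 2 → L) 0 = 0 := by
    simp
    ring
  rw [this, mul_zero, zero_smul, add_zero, one_smul]

lemma tv_sq (k v1 v2 : L) : tv k v1 v2 * tv k v1 v2 = tv (2 * k) v1 v2 := by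
  ext i j
  fin_cases i <;> fin_cases j <;>
    simp [tv, Matrix.mul_apply, Fin.sum_univ_two] <;> ring

lemma tv_not_scalar {k v1 v2 : L} (h2 : (2 : L) ≠ 0) (hk : k ≠ 0)
    (hv : (![v1, v2] : Fin 2 → L) ≠ 0) (c : L) : tv k v1 v2 * tv k v1 v2 ≠ c • (1 : M2 L) := by
  intro h
  rw [tv_sq] at h
  have h01 := congrFun (congrFun h 0) 1
  have h10 := congrFun (congrFun h 1) 0
  simp [tv] at h01 h10
  have e1 : v1 = 0 := by
    rcases h01 with (h | h) | h
    · exact absurd h h2
    · exact absurd h hk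
    · exact h
  have e2 : v2 = 0 := by
    rcases h10 with (h | h) | h
    · exact absurd h h2
    · exact absurd h hk
    · exact h
  apply hv
  funext i
  fin_cases i
  · exact e1
  · exact e2

lemma tv_map {F : Type*} [Field F] (f : F →+* L) (k v1 v2 : F) :
    (tv k v1 v2).map f = tv (f k) (f v1) (f v2) := by
  ext i j
  fin_cases i <;> fin_cases j <;> simp [tv]

end tv

theorem tqt_thm (hNQ : Pool.SCG.NQStmt) : Pool.SCG.TQTStmt := by
  intro F _ _ h2 X x y e k v1 v2 k' v1' v2' hx hy hxI hyI hk hk' hc he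
  by_contra heX
  have hA : Is x false (blk (tv k v1 v2) 1) := by
    have : blk (tv k v1 v2) 1 = !![1 - k * v1 * v2, k * v1 ^ 2, 0;
        -(k * v2 ^ 2), 1 + k * v1 * v2, 0; 0, 0, 1] := by
      simp [blk, tv]
    rw [this]
    exact hxI
  have hB : Is y false (blk (tv k' v1' v2') 1) := by
    have : blk (tv k' v1' v2') 1 = !![1 - k' * v1' * v2', k' * v1' ^ 2, 0;
        -(k' * v2' ^ 2), 1 + k' * v1' * v2', 0; 0, 0, 1] := by
      simp [blk, tv]
    rw [this]
    exact hyI
  have hv : (![v1, v2] : Fin 2 → F) ≠ 0 := by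
    intro h
    have e0 : v1 = 0 := by simpa using congrFun h 0
    have e1 : v2 = 0 := by simpa using congrFun h 1
    exact hc (by rw [e0, e1]; ring)
  have hv' : (![v1', v2'] : Fin 2 → F) ≠ 0 := by
    intro h
    have e0 : v1' = 0 := by simpa using congrFun h 0
    have e1 : v2' = 0 := by simpa using congrFun h 1
    exact hc (by rw [e0, e1]; ring)
  rcases core hNQ h2 hx hy hA hB (tv_not_scalar h2 hk hv) (tv_not_scalar h2 hk' hv') he heX with
    hcm | ⟨u, hu, ⟨γ, hγ⟩, ⟨γ', hγ'⟩⟩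
  · have h1 : tv k v1 v2 *ᵥ (tv k' v1' v2' *ᵥ ![v1, v2]) =
        (1 : F) • (tv k' v1' v2' *ᵥ ![v1, v2]) := by
      rw [Matrix.mulVec_mulVec, hcm, ← Matrix.mulVec_mulVec, tv_self, Matrix.mulVec_smul]
    have h3 := tv_eig hk hv h1
    rw [cr_swap, neg_eq_zero] at h3
    obtain ⟨c, hcv⟩ := exists_smul hv h3
    have h4 := tv_eig hk' hv' hcv
    apply hc
    have : cr ![v1', v2'] ![v1, v2] = v1' * v2 - v2' * v1 := by simp [cr]
    rw [this] at h4
    linear_combination -h4
  · rw [tv_map] at hγ hγ'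
    have n1 := vm_ne (algebraMap F (AlgebraicClosure F)) hv
    have n2 := vm_ne (algebraMap F (AlgebraicClosure F)) hv'
    have w1 : vm (algebraMap F (AlgebraicClosure F)) ![v1, v2] =
        ![algebraMap F (AlgebraicClosure F) v1, algebraMap F (AlgebraicClosure F) v2] := by
      funext i
      fin_cases i <;> simp [vm]
    have w2 : vm (algebraMap F (AlgebraicClosure F)) ![v1', v2'] =
        ![algebraMap F (AlgebraicClosure F) v1', algebraMap F (AlgebraicClosure F) v2'] := by
      funext i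
      fin_cases i <;> simp [vm]
    rw [w1] at n1
    rw [w2] at n2
    have k1 : algebraMap F (AlgebraicClosure F) k ≠ 0 := by
      intro h
      exact hk ((map_eq_zero _).1 h)
    have k2 : algebraMap F (AlgebraicClosure F) k' ≠ 0 := by
      intro h
      exact hk' ((map_eq_zero _).1 h)
    have h3 := tv_eig k1 n1 hγ
    have h4 := tv_eig k2 n2 hγ'
    rw [cr_swap, neg_eq_zero] at h3 h4
    have h5 := cr_trans hu h3 h4
    rw [← w1, ← w2, vm_cr] at h5
    have h6 := (map_eq_zero _).1 h5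
    apply hc
    have : cr ![v1, v2] ![v1', v2'] = v1 * v2' - v2 * v1' := by simp [cr]
    rw [this] at h6
    exact h6

end Pool.Agent.H95.SCG
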