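import Pool.Agent.H24.SCG.Base

/-!
SCG: common part of the block lemmas TQD and TQT.
-/

namespace Pool.Agent.H95.SCG

open Matrix Pool.SCG

/-- square matrices of size two -/
abbrev M2 (L : Type*) := Matrix (Fin 2) (Fin 2) L

/-- cross product of two vectors of the plane -/
def cr {L : Type*} [Field L] (u v : Fin 2 → L) : L := u 0 * v 1 - u 1 * v 0

section vectors

variable {L : Type*} [Field L]

lemma cr_self (u : Fin 2 → L) : cr u u = 0 := by unfold cr; ring

lemma cr_swap (u v : Fin 2 → L) : cr u v = -cr v u := by unfold cr; ring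

lemma cr_smul_left (c : L) (u v : Fin 2 → L) : cr (c • u) v = c * cr u v := by
  unfold cr
  simp only [Pi.smul_apply, smul_eq_mul]
  ring

lemma cr_smul_right (c : L) (u v : Fin 2 → L) : cr u (c • v) = c * cr u v := by
  unfold cr
  simp only [Pi.smul_apply, smul_eq_mul]
  ring

lemma cr_zero_left (v : Fin 2 → L) : cr 0 v = 0 := by
  unfold cr
  simp

lemma exists_smul {u v : Fin 2 → L} (hv : v ≠ 0) (h : cr u v = 0) : ∃ c : L, u = c • v := by
  unfold cr at h
  by_cases h0 : v 0 = 0
  · have h1 : v 1 ≠ 0 := by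
      intro h1
      apply hv
      funext i
      fin_cases i
      · exact h0
      · exact h1
    rw [h0, mul_zero, sub_zero] at h
    have h2 : u 0 = 0 := by
      rcases mul_eq_zero.1 h with h3 | h3
      · exact h3
      · exact absurd h3 h1
    refine ⟨u 1 / v 1, ?_⟩
    funext i
    fin_cases i
    · simp [h0, h2]
    · simp [h1]
  · refine ⟨u 0 / v 0, ?_⟩
    funext i
    fin_cases i
    · simp [h0]
    · simp only [Pi.smul_apply, smul_eq_mul, Fin.mk_one, Fin.isValue]
      field_simp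
      linear_combination -h

lemma cr_trans {u v w : Fin 2 → L} (hu : u ≠ 0) (h1 : cr u v = 0) (h2 : cr u w = 0) :
    cr v w = 0 := by
  have h3 : cr v u = 0 := by rw [cr_swap, h1, neg_zero]
  obtain ⟨c, rfl⟩ := exists_smul hu h3
  rw [cr_smul_left, h2, mul_zero]

lemma three_vec (u v w : Fin 2 → L) : cr v w • u = cr u w • v - cr u v • w := by
  funext i
  unfold cr
  fin_cases i
  · simp
    ring
  · simp
    ring

/-- eigenvectors of a matrix with two different eigenvalues -/
lemma eig_two {A : M2 L} {v w u : Fin 2 → L} {α β γ : L} (hv : A *ᵥ v = α • v)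
    (hw : A *ᵥ w = β • w) (hvw : α ≠ β) (hv0 : v ≠ 0) (hw0 : w ≠ 0) (hu : A *ᵥ u = γ • u) :
    (α ≠ γ → cr u w = 0) ∧ (β ≠ γ → cr u v = 0) := by
  have hc : cr v w ≠ 0 := by
    intro h
    obtain ⟨c, rfl⟩ := exists_smul hw0 h
    rw [Matrix.mulVec_smul, hw] at hv
    have h2 : (c * (β - α)) • w = 0 := by
      have : (c * (β - α)) • w = c • β • w - α • c • w := by
        rw [smul_smul, smul_smul, ← sub_smul]
        congr 1
        ring
      rw [this, hv, sub_self]
    rcases smul_eq_zero.1 h2 with h3 | h3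
    · rcases mul_eq_zero.1 h3 with h4 | h4
      · exact hv0 (by rw [h4, zero_smul])
      · exact hvw (sub_eq_zero.1 h4).symm
    · exact hw0 h3
  have h3 := three_vec u v w
  have h4 : cr u w • (α - γ) • v - cr u v • (β - γ) • w = 0 := by
    have h5 := congrArg (fun x => A *ᵥ x) h3
    simp only [Matrix.mulVec_smul, Matrix.mulVec_sub, hv, hw, hu] at h5
    have h6 : cr v w • γ • u = γ • (cr u w • v - cr u v • w) := by
      rw [← h3, smul_comm]
    rw [h6] at h5
    have h7 : cr u w • (α - γ) • v - cr u v • (β - γ) • w =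
        (cr u w • α • v - cr u v • β • w) - γ • (cr u w • v - cr u v • w) := by
      simp only [sub_smul, smul_sub, smul_smul]
      rw [mul_comm γ (cr u w), mul_comm γ (cr u v)]
      abel
    rw [h7, ← h5, sub_self]
  constructor
  · intro hα
    have h5 := congrArg (fun x => cr x w) h4
    simp only [cr_zero_left] at h5
    have h6 : cr (cr u w • (α - γ) • v - cr u v • (β - γ) • w) w =
        cr u w * ((α - γ) * cr v w) := by
      unfold cr
      simp only [Pi.sub_apply, Pi.smul_apply, smul_eq_mul]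
      ring
    rw [h6] at h5
    rcases mul_eq_zero.1 h5 with h7 | h7
    · exact h7
    · rcases mul_eq_zero.1 h7 with h8 | h8
      · exact absurd (sub_eq_zero.1 h8) hα
      · exact absurd h8 hc
  · intro hβ
    have h5 := congrArg (fun x => cr x v) h4
    simp only [cr_zero_left] at h5
    have h6 : cr (cr u w • (α - γ) • v - cr u v • (β - γ) • w) v =
        cr u v * ((β - γ) * cr v w) := by
      unfold cr
      simp only [Pi.sub_apply, Pi.smul_apply, smul_eq_mul]
      ring
    rw [h6] at h5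
    rcases mul_eq_zero.1 h5 with h7 | h7
    · exact h7
    · rcases mul_eq_zero.1 h7 with h8 | h8
      · exact absurd (sub_eq_zero.1 h8) hβ
      · exact absurd h8 hc

/-- an eigenvector of a matrix with two different eigenvalues is on one of the eigenlines -/
lemma eig_or {A : M2 L} {v w u : Fin 2 → L} {α β γ : L} (hv : A *ᵥ v = α • v)
    (hw : A *ᵥ w = β • w) (hvw : α ≠ β) (hv0 : v ≠ 0) (hw0 : w ≠ 0) (hu : A *ᵥ u = γ • u) :
    cr u v = 0 ∨ cr u w = 0 := by
  have h := eig_two hv hw hvw hv0 hw0 hu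
  by_cases h1 : β = γ
  · right
    apply h.1
    rw [← h1]
    exact hvw
  · left
    exact h.2 h1

/-- a square with two different eigenvalues is not scalar -/
lemma sq_not_scalar {A : M2 L} {v w : Fin 2 → L} {α β : L} (hv : A *ᵥ v = α • v)
    (hw : A *ᵥ w = β • w) (hvw : α ^ 2 ≠ β ^ 2) (hv0 : v ≠ 0) (hw0 : w ≠ 0) (c : L) :
    A * A ≠ c • (1 : M2 L) := by
  intro h
  have e1 : (A * A) *ᵥ v = (α ^ 2) • v := by
    rw [← Matrix.mulVec_mulVec, hv, Matrix.mulVec_smul, hv, smul_smul, pow_two]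
  have e2 : (A * A) *ᵥ w = (β ^ 2) • w := by
    rw [← Matrix.mulVec_mulVec, hw, Matrix.mulVec_smul, hw, smul_smul, pow_two]
  rw [h, Matrix.smul_mulVec, Matrix.one_mulVec] at e1 e2
  have f1 : c = α ^ 2 := by
    by_contra hne
    have : (c - α ^ 2) • v = 0 := by rw [sub_smul, e1, sub_self]
    rcases smul_eq_zero.1 this with h3 | h3
    · exact hne (sub_eq_zero.1 h3)
    · exact hv0 h3
  have f2 : c = β ^ 2 := by
    by_contra hne
    have : (c - β ^ 2) • w = 0 := by rw [sub_smul, e2, sub_self]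
    rcases smul_eq_zero.1 this with h3 | h3
    · exact hne (sub_eq_zero.1 h3)
    · exact hw0 h3
  exact hvw (f1.symm.trans f2)

end vectors

/-! ### blocks -/

section blocks

variable {F : Type*} [Field F]

/-- block matrix -/
def blk (A : M2 F) (a : F) : M3 F := !![A 0 0, A 0 1, 0; A 1 0, A 1 1, 0; 0, 0, a]

lemma blk_mul (A B : M2 F) (a b : F) : blk A a * blk B b = blk (A * B) (a * b) := by
  ext i j
  fin_cases i <;> fin_cases j <;>
    simp [blk, Matrix.mul_apply, Fin.sum_univ_three, Fin.sum_univ_two]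

lemma blk_det (A : M2 F) (a : F) : (blk A a).det = A.det * a := by
  simp [blk, Matrix.det_fin_three, Matrix.det_fin_two]
  ring

lemma blk_one : blk (1 : M2 F) 1 = 1 := by
  ext i j
  fin_cases i <;> fin_cases j <;> simp [blk]

/-- the embedding of `SL(2,F)`, as a function -/
def emf (k : Matrix.SpecialLinearGroup (Fin 2) F) : Cor F :=
  inn ⟨blk (k : M2 F) 1, by rw [blk_det, k.2, one_mul]⟩

lemma emf_is (k : Matrix.SpecialLinearGroup (Fin 2) F) :
    Is (emf k) false (blk (k : M2 F) 1) := ⟨rfl, rfl⟩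

/-- the embedding of `SL(2,F)` -/
def emb : Matrix.SpecialLinearGroup (Fin 2) F →* Cor F where
  toFun := emf
  map_one' := by
    have h := emf_is (1 : Matrix.SpecialLinearGroup (Fin 2) F)
    rw [Matrix.SpecialLinearGroup.coe_one, blk_one] at h
    exact h.ext is_one
  map_mul' k l := by
    have h1 := emf_is (k * l)
    have h2 := (emf_is k).mul_inner (emf_is l)
    rw [blk_mul, one_mul, ← Matrix.SpecialLinearGroup.coe_mul] at h2
    exact h1.ext h2

lemma emb_is (k : Matrix.SpecialLinearGroup (Fin 2) F) :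
    Is (emb k) false (blk (k : M2 F) 1) := emf_is k

lemma emb_neg {e : Cor F} (he : Is e false (dg (-1) (-1) 1)) :
    emb (-1 : Matrix.SpecialLinearGroup (Fin 2) F) = e := by
  have h := emb_is (-1 : Matrix.SpecialLinearGroup (Fin 2) F)
  have : blk ((-1 : Matrix.SpecialLinearGroup (Fin 2) F) : M2 F) 1 = dg (-1) (-1) 1 := by
    ext i j
    fin_cases i <;> fin_cases j <;> simp [blk, dg]
  rw [this] at h
  exact h.ext he

/-- conjugation of a block element -/
lemma conj_emb {X : Subgroup (Cor F)} {x : Cor F} {A : M2 F} {a : F} (hx : x ∈ X)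
    (hA : Is x false (blk A a)) (k : Matrix.SpecialLinearGroup (Fin 2) F) (hk : emb k ∈ X) :
    ∃ k' : Matrix.SpecialLinearGroup (Fin 2) F, emb k' ∈ X ∧
      A * (k : M2 F) = (k' : M2 F) * A := by
  have hd : A.det * a = 1 := by rw [← blk_det]; exact hA.det
  have hA0 : A.det ≠ 0 := fun h => by rw [h, zero_mul] at hd; exact zero_ne_one hd
  have hu : IsUnit A.det := isUnit_iff_ne_zero.2 hA0
  have hdet : (A * (k : M2 F) * A⁻¹).det = 1 := by
    rw [Matrix.det_mul, Matrix.det_mul, k.2, mul_one, ← Matrix.det_mul,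
      Matrix.mul_nonsing_inv A hu, Matrix.det_one]
  have hcomm : A * (k : M2 F) = (A * (k : M2 F) * A⁻¹) * A := by
    rw [mul_assoc, Matrix.nonsing_inv_mul A hu, mul_one]
  refine ⟨⟨A * (k : M2 F) * A⁻¹, hdet⟩, ?_, hcomm⟩
  have h1 := hA.mul_inner (emb_is k)
  have h2 := (emb_is (⟨A * (k : M2 F) * A⁻¹, hdet⟩ : Matrix.SpecialLinearGroup (Fin 2) F)).mul_inner
    hA
  rw [blk_mul] at h1 h2
  have h3 : blk (((⟨A * (k : M2 F) * A⁻¹, hdet⟩ : Matrix.SpecialLinearGroup (Fin 2) F) : M2 F) * A)
      (1 * a) = blk (A * (k : M2 F)) (a * 1) := by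
    rw [one_mul, mul_one]
    exact congrArg (fun M => blk M a) hcomm.symm
  rw [h3] at h2
  have h4 := h1.ext h2
  have h5 : emb (⟨A * (k : M2 F) * A⁻¹, hdet⟩ : Matrix.SpecialLinearGroup (Fin 2) F) =
      x * emb k * x⁻¹ := by
    rw [eq_mul_inv_iff_mul_eq, ← h4]
  rw [h5]
  exact X.mul_mem (X.mul_mem hx hk) (X.inv_mem hx)

/-- the commutator of two block elements -/
lemma comm_emb {X : Subgroup (Cor F)} {x y : Cor F} {A B : M2 F} {a b : F} (hx : x ∈ X)
    (hy : y ∈ X) (hA : Is x false (blk A a)) (hB : Is y false (blk B b)) :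
    ∃ k : Matrix.SpecialLinearGroup (Fin 2) F, emb k ∈ X ∧ A * B = (k : M2 F) * (B * A) := by
  have hdA : A.det * a = 1 := by rw [← blk_det]; exact hA.det
  have hdB : B.det * b = 1 := by rw [← blk_det]; exact hB.det
  have hA0 : A.det ≠ 0 := fun h => by rw [h, zero_mul] at hdA; exact zero_ne_one hdA
  have hB0 : B.det ≠ 0 := fun h => by rw [h, zero_mul] at hdB; exact zero_ne_one hdB
  have hu : IsUnit (B * A).det := by
    rw [Matrix.det_mul]
    exact isUnit_iff_ne_zero.2 (mul_ne_zero hB0 hA0)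
  have hdet : (A * B * (B * A)⁻¹).det = 1 := by
    have h1 : (A * B).det = (B * A).det := by
      rw [Matrix.det_mul, Matrix.det_mul, mul_comm]
    rw [Matrix.det_mul, h1, ← Matrix.det_mul, Matrix.mul_nonsing_inv _ hu, Matrix.det_one]
  have hcomm : A * B = (A * B * (B * A)⁻¹) * (B * A) := by
    rw [mul_assoc, Matrix.nonsing_inv_mul _ hu, mul_one]
  refine ⟨⟨A * B * (B * A)⁻¹, hdet⟩, ?_, hcomm⟩
  have h1 := hA.mul_inner hB
  have h2 := (emb_is (⟨A * B * (B * A)⁻¹, hdet⟩ : Matrix.SpecialLinearGroup (Fin 2) F)).mul_inner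
    (hB.mul_inner hA)
  rw [blk_mul] at h1
  rw [blk_mul, blk_mul] at h2
  have h3 : blk (((⟨A * B * (B * A)⁻¹, hdet⟩ : Matrix.SpecialLinearGroup (Fin 2) F) : M2 F) *
      (B * A)) (1 * (b * a)) = blk (A * B) (a * b) := by
    rw [one_mul, mul_comm b a]
    exact congrArg (fun M => blk M (a * b)) hcomm.symm
  rw [h3] at h2
  have h4 := h1.ext h2
  have h5 : emb (⟨A * B * (B * A)⁻¹, hdet⟩ : Matrix.SpecialLinearGroup (Fin 2) F) =
      x * y * (y * x)⁻¹ := by
    rw [eq_mul_inv_iff_mul_eq, ← h4]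
  rw [h5]
  exact X.mul_mem (X.mul_mem hx hy) (X.inv_mem (X.mul_mem hy hx))

end blocks

/-- the common part: the blocks commute or have a common eigenvector -/
lemma core (hNQ : NQStmt) {F : Type} [Field F] [Finite F] (h2 : (2 : F) ≠ 0)
    {X : Subgroup (Cor F)} {x y e : Cor F} {A B : M2 F} {a b : F} (hx : x ∈ X) (hy : y ∈ X)
    (hA : Is x false (blk A a)) (hB : Is y false (blk B b))
    (hA2 : ∀ c : F, A * A ≠ c • (1 : M2 F)) (hB2 : ∀ c : F, B * B ≠ c • (1 : M2 F))
    (he : Is e false (dg (-1) (-1) 1)) (heX : e ∉ X) :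
    A * B = B * A ∨ ∃ v : Fin 2 → AlgebraicClosure F, v ≠ 0 ∧ EigB A v ∧ EigB B v := by
  have hdA : A.det * a = 1 := by rw [← blk_det]; exact hA.det
  have hdB : B.det * b = 1 := by rw [← blk_det]; exact hB.det
  have hA0 : A.det ≠ 0 := fun h => by rw [h, zero_mul] at hdA; exact zero_ne_one hdA
  have hB0 : B.det ≠ 0 := fun h => by rw [h, zero_mul] at hdB; exact zero_ne_one hdB
  by_cases hK : X.comap emb = ⊥
  · left
    obtain ⟨k, hk, hAB⟩ := comm_emb hx hy hA hB
    have : k ∈ X.comap (emb : Matrix.SpecialLinearGroup (Fin 2) F →* Cor F) := hk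
    rw [hK, Subgroup.mem_bot] at this
    rw [hAB, this, Matrix.SpecialLinearGroup.coe_one, one_mul]
  · right
    refine hNQ F h2 (X.comap emb) A B ?_ hK hA0 hB0 ?_ ?_ hA2 hB2
    · intro h
      rw [Subgroup.mem_comap, emb_neg he] at h
      exact heX h
    · intro k hk
      obtain ⟨k', hk', h⟩ := conj_emb hx hA k hk
      exact ⟨k', hk', h⟩
    · intro k hk
      obtain ⟨k', hk', h⟩ := conj_emb hy hB k hk
      exact ⟨k', hk', h⟩

section maps

variable {F L : Type*} [Field F] [Field L] (f : F →+* L)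

/-- image of a vector -/
def vm (v : Fin 2 → F) : Fin 2 → L := fun i => f (v i)

lemma vm_ne {v : Fin 2 → F} (hv : v ≠ 0) : vm f v ≠ 0 := by
  intro h
  apply hv
  funext i
  have := congrFun h i
  exact (map_eq_zero f).1 this

lemma vm_cr (v w : Fin 2 → F) : cr (vm f v) (vm f w) = f (cr v w) := by
  simp [cr, vm]

lemma vm_mulVec {A : M2 F} {v : Fin 2 → F} {α : F} (h : A *ᵥ v = α • v) :
    (A.map f) *ᵥ (vm f v) = f α • vm f v := by
  funext i
  have h1 := congrFun h i
  simp only [Matrix.mulVec, dotProduct, Fin.sum_univ_two, Pi.smul_apply, smul_eq_mul] at h1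
  simp only [Matrix.mulVec, dotProduct, Fin.sum_univ_two, Pi.smul_apply, smul_eq_mul,
    Matrix.map_apply, vm]
  rw [← map_mul, ← map_mul, ← map_add, h1, map_mul]

end maps

end Pool.Agent.H95.SCG
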